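import Pool.Agent.Helper575.NP15

open MeasureTheory Set Filter Topology

namespace Pool.Agent.Results.MP_793d1e_an.OneSidedDecay

/-- The indicator of `Ω` tiles at level `w` with translation set `Λ`: `Λ` is countable and almost
every `x` lies in exactly `w` of the translates `Ω + l`, `l ∈ Λ`. -/
def TilesAtLevel (Ω : Set ℝ) (w : ℕ) (Λ : Set ℝ) : Prop :=
  Λ.Countable ∧ ∀ᵐ x : ℝ, {l : ℝ | l ∈ Λ ∧ x - l ∈ Ω}.encard = w

/-- `Λ` is a finite union of translates of one arithmetic progression `α ℤ`, `α > 0`. -/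
def PeriodicStructure (Λ : Set ℝ) : Prop :=
  ∃ α : ℝ, 0 < α ∧ ∃ F : Finset ℝ, F.Nonempty ∧ Λ = {t | ∃ β ∈ F, ∃ k : ℤ, t = α * k + β}

/-- The set has an exponentially small tail on one side (any tail of finite measure is allowed on
the other side); sets bounded on one side are included. -/
def OneSidedSmall (Ω : Set ℝ) : Prop :=
  BddBelow Ω ∨ BddAbove Ω ∨
    ∃ c : ℝ, 0 < c ∧ (IntegrableOn (fun x => Real.exp (-c * x)) Ω ∨
      IntegrableOn (fun x => Real.exp (c * x)) Ω)

lemma tiles_iff (Ω Λ : Set ℝ) : TilesAtLevel Ω 1 Λ ↔ (Λ.Countable ∧ Helper575.NP.T1 Ω Λ) := by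
  simp only [TilesAtLevel, Helper575.NP.T1, Nat.cast_one]

theorem result (Ω : Set ℝ) (hΩ : MeasurableSet Ω) (h0 : 0 < volume Ω) (h1 : volume Ω < ⊤)
    (hd : OneSidedSmall Ω) :
    (∀ Λ : Set ℝ, TilesAtLevel Ω 1 Λ → PeriodicStructure Λ) ∧
      {Λ : Set ℝ | TilesAtLevel Ω 1 Λ ∧ 0 ∈ Λ}.Finite := by
  have hconst : IntegrableOn (fun _ : ℝ => (1:ℝ)) Ω := integrableOn_const h1.ne
  have key : ∃ c : ℝ, 0 < c ∧ (IntegrableOn (fun x => Real.exp (-c * x)) Ω ∨
      IntegrableOn (fun x => Real.exp (c * x)) Ω) := by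
    rcases hd with ⟨B, hB⟩ | ⟨B, hB⟩ | h
    · refine ⟨1, one_pos, Or.inl ?_⟩
      refine Integrable.mono' (hconst.const_mul (Real.exp (-B))) ?_ ?_
      · exact (by fun_prop : Continuous fun x : ℝ => Real.exp (-1 * x)).aestronglyMeasurable
      · rw [ae_restrict_iff' hΩ]
        refine Eventually.of_forall (fun x hx => ?_)
        have hBx : B ≤ x := hB hx
        rw [Real.norm_eq_abs, abs_of_pos (Real.exp_pos _), mul_one]
        exact Real.exp_le_exp.2 (by linarith)
    · refine ⟨1, one_pos, Or.inr ?_⟩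
      refine Integrable.mono' (hconst.const_mul (Real.exp B)) ?_ ?_
      · exact (by fun_prop : Continuous fun x : ℝ => Real.exp (1 * x)).aestronglyMeasurable
      · rw [ae_restrict_iff' hΩ]
        refine Eventually.of_forall (fun x hx => ?_)
        have hBx : x ≤ B := hB hx
        rw [Real.norm_eq_abs, abs_of_pos (Real.exp_pos _), mul_one]
        exact Real.exp_le_exp.2 (by linarith)
    · exact h
  obtain ⟨c, hc, hint⟩ := key
  have main : (∀ Λ : Set ℝ, Λ.Countable → Helper575.NP.T1 Ω Λ → Helper575.NP.PS Λ) ∧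
      {Λ : Set ℝ | (Λ.Countable ∧ Helper575.NP.T1 Ω Λ) ∧ 0 ∈ Λ}.Finite := by
    rcases hint with h | h
    · exact Helper575.NP.left_case hΩ h0 h1 hc h
    · exact Helper575.NP.right_case hΩ h0 h1 hc h
  refine ⟨fun Λ hT => ?_, ?_⟩
  · rw [tiles_iff] at hT
    exact main.1 Λ hT.1 hT.2
  · simp only [tiles_iff]
    exact main.2

end Pool.Agent.Results.MP_793d1e_an.OneSidedDecay
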